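import Pool.Agent.Helper72.LS.L1

/-!
Piece LS-P7b: local counting facts at a vertex.
-/

namespace Pool.Agent.Helper2.LS

open Finset
open scoped Classical
open Pool.Agent.Helper72.LS

theorem loc_deg_le {V : Type} [Fintype V] (G : SimpleGraph V) (w : V) {y y' : V}
    (hy : y ∈ PH G w) (hy' : y' ∈ PH G w) (hyy' : G.Adj y y') :
    (∑ u ∈ PH G w, ad G y u) + (∑ u ∈ PH G w, ad G y' u) ≤ eI G (PH G w) + 1 := by
  have h2 := two_eI G (PH G w)
  set S := PH G w with hS
  have hne : y ≠ y' := hyy'.ne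
  have hy'e : y' ∈ S.erase y := Finset.mem_erase.2 ⟨hne.symm, hy'⟩
  have e1 : ∑ x ∈ S, ∑ z ∈ S, ad G x z
      = (∑ z ∈ S, ad G y z) + ((∑ z ∈ S, ad G y' z)
        + ∑ x ∈ (S.erase y).erase y', ∑ z ∈ S, ad G x z) := by
    rw [← Finset.add_sum_erase S _ hy, ← Finset.add_sum_erase (S.erase y) _ hy'e]
  have e2 : ∑ x ∈ (S.erase y).erase y', (ad G y x + ad G y' x)
      ≤ ∑ x ∈ (S.erase y).erase y', ∑ z ∈ S, ad G x z := by
    refine Finset.sum_le_sum fun x _ => ?_
    have hsub : ({y, y'} : Finset V) ⊆ S := by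
      intro t ht
      simp only [Finset.mem_insert, Finset.mem_singleton] at ht
      rcases ht with rfl | rfl
      · exact hy
      · exact hy'
    have := Finset.sum_le_sum_of_subset_of_nonneg hsub
      (f := fun z => ad G x z) (fun z _ _ => ad_nonneg G x z)
    rw [Finset.sum_pair hne] at this
    rw [ad_symm G y x, ad_symm G y' x]
    exact this
  have e3 : ∑ x ∈ S, (ad G y x + ad G y' x)
      = (ad G y y + ad G y' y) + ((ad G y y' + ad G y' y')
        + ∑ x ∈ (S.erase y).erase y', (ad G y x + ad G y' x)) := by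
    rw [← Finset.add_sum_erase S _ hy, ← Finset.add_sum_erase (S.erase y) _ hy'e]
  have e4 : ∑ x ∈ S, (ad G y x + ad G y' x)
      = (∑ x ∈ S, ad G y x) + ∑ x ∈ S, ad G y' x := Finset.sum_add_distrib
  have a1 := ad_self G y
  have a2 := ad_self G y'
  have a3 := ad_pos hyy'
  have a4 := ad_pos hyy'.symm
  linarith

theorem loc_cent {V : Type} [Fintype V] (G : SimpleGraph V) (k δ : ℤ) (w : V)
    (H1 : ∀ u v, G.Adj u v → 0 ≤ cc G k δ u v) {y y' : V}
    (hy : y ∈ PH G w) (hy' : y' ∈ PH G w) (hyy' : G.Adj y y') :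
    2 * cc G k δ y y' ≤ Cent2 G k δ w := by
  unfold Cent2
  set S := PH G w with hS
  have hne : y ≠ y' := hyy'.ne
  have hnn : ∀ a b, 0 ≤ ad G a b * cc G k δ a b := by
    intro a b
    by_cases h : G.Adj a b
    · rw [ad_pos h, one_mul]
      exact H1 a b h
    · rw [ad_neg h, zero_mul]
  have hsub : ({y, y'} : Finset V) ⊆ S := by
    intro t ht
    simp only [Finset.mem_insert, Finset.mem_singleton] at ht
    rcases ht with rfl | rfl
    · exact hy
    · exact hy'
  have h1 := Finset.sum_le_sum_of_subset_of_nonneg hsub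
    (f := fun a => ∑ z ∈ S, ad G a z * cc G k δ a z)
    (fun a _ _ => Finset.sum_nonneg fun z _ => hnn a z)
  rw [Finset.sum_pair hne] at h1
  have h2 : ad G y y' * cc G k δ y y' ≤ ∑ z ∈ S, ad G y z * cc G k δ y z :=
    Finset.single_le_sum (f := fun z => ad G y z * cc G k δ y z) (fun z _ => hnn y z) hy'
  have h3 : ad G y' y * cc G k δ y' y ≤ ∑ z ∈ S, ad G y' z * cc G k δ y' z :=
    Finset.single_le_sum (f := fun z => ad G y' z * cc G k δ y' z) (fun z _ => hnn y' z) hy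
  rw [ad_pos hyy', one_mul] at h2
  rw [ad_pos hyy'.symm, one_mul, cc_symm G k δ y' y] at h3
  linarith

theorem loc_eI_union {V : Type} [Fintype V] (G : SimpleGraph V) (A B : Finset V)
    (hAB : ∀ x ∈ A \ B, ∀ y ∈ B \ A, ¬ G.Adj x y) :
    eI G (A ∪ B) ≤ eI G A + eI G B := by
  have hU := two_eI G (A ∪ B)
  have hA := two_eI G A
  have hB := two_eI G B
  have key : ∀ S : Finset V, ∑ x ∈ S, ∑ y ∈ S, ad G x y
      = ∑ x, ∑ y, (if x ∈ S ∧ y ∈ S then ad G x y else 0) := by
    intro S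
    rw [← Finset.sum_filter_add_sum_filter_not univ (fun x => x ∈ S)
      (fun x => ∑ y, (if x ∈ S ∧ y ∈ S then ad G x y else 0))]
    have h0 : ∑ x ∈ univ.filter (fun x => ¬ x ∈ S),
        ∑ y, (if x ∈ S ∧ y ∈ S then ad G x y else 0) = 0 := by
      refine Finset.sum_eq_zero fun x hx => ?_
      have hx' : ¬ x ∈ S := (Finset.mem_filter.1 hx).2
      refine Finset.sum_eq_zero fun y _ => ?_
      simp [hx']
    rw [h0, add_zero]
    have hf : univ.filter (fun x => x ∈ S) = S := by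
      ext x; simp
    rw [hf]
    refine Finset.sum_congr rfl fun x hx => ?_
    rw [← Finset.sum_filter]
    refine Finset.sum_congr ?_ fun _ _ => rfl
    ext y; simp [hx]
  rw [key] at hU hA hB
  have hle : ∑ x, ∑ y, (if x ∈ A ∪ B ∧ y ∈ A ∪ B then ad G x y else 0)
      ≤ ∑ x, ∑ y, ((if x ∈ A ∧ y ∈ A then ad G x y else 0)
        + (if x ∈ B ∧ y ∈ B then ad G x y else 0)) := by
    refine Finset.sum_le_sum fun x _ => Finset.sum_le_sum fun y _ => ?_
    have h0 := ad_nonneg G x y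
    have hx1 : x ∈ A → x ∉ B → y ∈ B → y ∉ A → ad G x y = 0 := by
      intro h1 h2 h3 h4
      exact ad_neg (hAB x (Finset.mem_sdiff.2 ⟨h1, h2⟩) y (Finset.mem_sdiff.2 ⟨h3, h4⟩))
    have hx2 : x ∈ B → x ∉ A → y ∈ A → y ∉ B → ad G x y = 0 := by
      intro h1 h2 h3 h4
      rw [ad_symm]
      exact ad_neg (hAB y (Finset.mem_sdiff.2 ⟨h3, h4⟩) x (Finset.mem_sdiff.2 ⟨h1, h2⟩))
    by_cases h1 : x ∈ A <;> by_cases h2 : x ∈ B <;> by_cases h3 : y ∈ A <;>
      by_cases h4 : y ∈ B <;> simp [h1, h2, h3, h4] <;> first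
        | exact h0
        | exact le_of_eq (hx1 h1 h2 h4 h3)
        | exact le_of_eq (hx2 h2 h1 h3 h4)
  simp only [Finset.sum_add_distrib] at hle
  linarith

end Pool.Agent.Helper2.LS
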